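import Pool.Agent.H489Z.BorH.Defs
import Pool.Agent.H148Z.PH1

set_option autoImplicit false

namespace Pool.Agent.H489Z.BorH

open Set Filter Topology

/-- two-element group -/
abbrev Gam : Type := Multiplicative (ZMod 2)

/-- the ambient group -/
abbrev GG : Type := ℕ × ℕ → Gam

/-- the ideal `Fin × Fin` as a group -/
def HH : Subgroup GG where
  carrier := {z | ∀ᶠ k in atTop, ∀ᶠ m in atTop, z (k, m) = 1}
  one_mem' := Eventually.of_forall fun _ => Eventually.of_forall fun _ => rfl
  mul_mem' := by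
    intro a b ha hb
    filter_upwards [ha, hb] with k h1 h2
    filter_upwards [h1, h2] with m h3 h4
    simp [h3, h4]
  inv_mem' := by
    intro a ha
    filter_upwards [ha] with k h1
    filter_upwards [h1] with m h3
    simp [h3]

lemma mem_HH {z : GG} : z ∈ HH ↔ ∀ᶠ k in atTop, ∀ᶠ m in atTop, z (k, m) = 1 := Iff.rfl

lemma measurable_HH : @MeasurableSet GG (borel GG) (HH : Set GG) := by
  let _ : MeasurableSpace GG := borel GG
  have _ : BorelSpace GG := ⟨rfl⟩
  have : (HH : Set GG) = ⋃ N : ℕ, ⋂ k : ℕ, ⋂ _ : N ≤ k, ⋃ M : ℕ, ⋂ m : ℕ, ⋂ _ : M ≤ m,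
      {z : GG | z (k, m) = 1} := by
    ext z
    simp only [SetLike.mem_coe, mem_HH, eventually_atTop, mem_iUnion, mem_iInter, mem_setOf_eq,
      ge_iff_le]
  rw [this]
  refine MeasurableSet.iUnion fun N => MeasurableSet.iInter fun k => MeasurableSet.iInter fun _ =>
    MeasurableSet.iUnion fun M => MeasurableSet.iInter fun m => MeasurableSet.iInter fun _ => ?_
  exact (isClosed_eq (continuous_apply _) continuous_const).measurableSet

/-- the nontrivial element -/
def gam : Gam := Multiplicative.ofAdd 1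

lemma gam_ne : gam ≠ 1 := by decide

lemma not_sigmaCompact_HH : ¬ IsSigmaCompact (HH : Set GG) := by
  rintro ⟨K, hK, hU⟩
  let ψ : (ℕ → ℕ) → GG := fun g p => if p.2 < g p.1 then gam else 1
  have hψ : Continuous ψ := by
    refine continuous_pi fun p => ?_
    exact (continuous_of_discreteTopology (f := fun a : ℕ => if p.2 < a then gam else 1)).comp
      (continuous_apply p.1)
  have hψH : ∀ g, ψ g ∈ HH := by
    intro g
    refine Eventually.of_forall fun k => ?_
    filter_upwards [eventually_ge_atTop (g k)] with m hm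
    simp [ψ, not_lt.2 hm]
  obtain ⟨n, f, hf⟩ := nonempty_interior_of_iUnion_of_closed (f := fun n => ψ ⁻¹' K n)
    (fun n => (hK n).isClosed.preimage hψ) (by
      refine eq_univ_of_forall fun g => ?_
      have : ψ g ∈ ⋃ n, K n := by rw [hU]; exact hψH g
      simpa using this)
  obtain ⟨I, u, hu, hsub⟩ := isOpen_pi_iff.1 isOpen_interior f hf
  let N := I.sup id + 1
  let gs : ℕ → ℕ → ℕ := fun j k => if k < N then f k else j
  let w : GG := fun p => if p.1 < N then ψ f p else gam
  have h1 : ∀ j, ψ (gs j) ∈ K n := by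
    intro j
    refine interior_subset (s := ψ ⁻¹' K n) (hsub fun i hi => ?_)
    have : i < N := Nat.lt_succ_of_le (Finset.le_sup (f := id) hi)
    simp only [gs, this, if_true]
    exact (hu i hi).2
  have h2 : Tendsto (fun j => ψ (gs j)) atTop (𝓝 w) := by
    refine tendsto_pi_nhds.2 fun p => tendsto_const_nhds.congr' ?_
    filter_upwards [eventually_gt_atTop p.2] with j hj
    by_cases h : p.1 < N
    · simp [w, ψ, gs, h]
    · simp [w, ψ, gs, h, hj]
  have h3 : w ∈ K n := (hK n).isClosed.mem_of_tendsto h2 (Eventually.of_forall h1)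
  have h4 : w ∈ HH := by
    have : w ∈ ⋃ n, K n := mem_iUnion.2 ⟨n, h3⟩
    rwa [hU] at this
  obtain ⟨k, hk, hk'⟩ := ((mem_HH.1 h4).and (eventually_ge_atTop N)).exists
  obtain ⟨m, hm⟩ := hk.exists
  simp [w, not_lt.2 hk'] at hm
  exact gam_ne hm

/-- partial colourings of `ℕ × ℕ` below the graph of a function -/
abbrev YY : Type := ℕ → ℕ × (ℕ → Bool)

/-- extension of columns -/
def cle (a b : ℕ × (ℕ → Bool)) : Prop := a.1 ≤ b.1 ∧ ∀ m < a.1, b.2 m = a.2 m

lemma cle_refl (a : ℕ × (ℕ → Bool)) : cle a a := ⟨le_rfl, fun _ _ => rfl⟩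

lemma cle_trans {a b c : ℕ × (ℕ → Bool)} (h : cle a b) (h' : cle b c) : cle a c :=
  ⟨h.1.trans h'.1, fun m hm => (h'.2 m (hm.trans_le h.1)).trans (h.2 m hm)⟩

/-- almost extension -/
def yle (y y' : YY) : Prop := ∀ᶠ k in atTop, cle (y k) (y' k)

lemma yle_refl (y : YY) : yle y y := Eventually.of_forall fun _ => cle_refl _

lemma yle_trans {a b c : YY} (h : yle a b) (h' : yle b c) : yle a c := by
  filter_upwards [h, h'] with k h1 h2
  exact cle_trans h1 h2

lemma exists_ub (F : Set YY) (hF : F.Countable) (hc : ∀ a ∈ F, ∀ b ∈ F, yle a b ∨ yle b a) :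
    ∃ y, ∀ a ∈ F, yle a y := by
  classical
  rcases F.eq_empty_or_nonempty with rfl | hne
  · exact ⟨fun _ => (0, fun _ => true), fun a ha => ha.elim⟩
  obtain ⟨e, rfl⟩ := hF.exists_eq_range hne
  have h1 : ∀ i, ∃ q ∈ range e, ∀ j ≤ i, yle (e j) q := by
    intro i
    induction i with
    | zero => exact ⟨e 0, ⟨0, rfl⟩, fun j hj => by rw [Nat.le_zero.1 hj]; exact yle_refl _⟩
    | succ i ih =>
      obtain ⟨q, hq, h⟩ := ih
      rcases hc q hq (e (i + 1)) ⟨_, rfl⟩ with h2 | h2
      · refine ⟨e (i + 1), ⟨_, rfl⟩, fun j hj => ?_⟩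
        rcases Nat.le_succ_iff.1 hj with h3 | h3
        · exact yle_trans (h j h3) h2
        · rw [h3]; exact yle_refl _
      · refine ⟨q, hq, fun j hj => ?_⟩
        rcases Nat.le_succ_iff.1 hj with h3 | h3
        · exact h j h3
        · rw [h3]; exact h2
  choose q hq hq' using h1
  have h2 : ∀ i, ∃ t, ∀ k, t ≤ k → ∀ j ≤ i, cle (e j k) (q i k) := by
    intro i
    have : ∀ᶠ k in atTop, ∀ j ∈ Finset.range (i + 1), cle (e j k) (q i k) :=
      (Finset.eventually_all _).2 fun j hj => hq' i j (Nat.lt_succ_iff.1 (Finset.mem_range.1 hj))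
    obtain ⟨t, ht⟩ := eventually_atTop.1 this
    exact ⟨t, fun k hk j hj => ht k hk j (Finset.mem_range.2 (Nat.lt_succ_iff.2 hj))⟩
  choose t ht using h2
  refine ⟨fun k => q (Nat.findGreatest (fun i => t i ≤ k) k) k, ?_⟩
  rintro _ ⟨j, rfl⟩
  filter_upwards [eventually_ge_atTop j, eventually_ge_atTop (t j)] with k h3 h4
  exact ht _ k (Nat.findGreatest_spec (P := fun i => t i ≤ k) h3 h4) j
    (Nat.le_findGreatest (P := fun i => t i ≤ k) h3 h4)

/-- the points of colour `b` -/
def xs (b : Bool) (y : YY) : Set (ℕ × ℕ) := {p | p.2 < (y p.1).1 ∧ (y p.1).2 p.2 = b}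

/-- the elements supported by `x` and the first `N` columns -/
def PN (x : Set (ℕ × ℕ)) (N : ℕ) : Set GG := {z | ∀ p, z p ≠ 1 → p ∈ x ∨ p.1 < N}

/-- codes of basic clopen sets -/
abbrev Code : Type := Σ L : ℕ, (Fin L × Fin L → Gam)

/-- restriction to a square -/
def sq (L : ℕ) (z : GG) : Code := ⟨L, fun p => z (p.1, p.2)⟩

/-- the level `L` of `V` covers `PN x N` -/
def Good (x : Set (ℕ × ℕ)) (V : Set Code) (N L : ℕ) : Prop := ∀ z ∈ PN x N, sq L z ∈ V

/-- tasks -/
abbrev Tk : Type := Bool × (ℕ → Set Code) × (ℕ → ℕ)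

/-- the task is done -/
def Task (t : Tk) (y : YY) : Prop :=
  (∀ k, t.2.2 k ≤ (y k).1) ∧ ∀ n, (∃ L, Good (xs t.1 y) (t.2.1 n) n L) →
    ∃ L, Good (xs t.1 y) (t.2.1 n) n L ∧ ∀ k, n ≤ k → L ≤ (y k).1

lemma exists_task (y : YY) (t : Tk) : ∃ y', yle y y' ∧ Task t y' := by
  classical
  obtain ⟨b, V, f⟩ := t
  have h : ∀ n, ∃ L, (∃ L, Good (xs b y) (V n) n L) → Good (xs b y) (V n) n L := by
    intro n
    by_cases h : ∃ L, Good (xs b y) (V n) n L
    · obtain ⟨L, hL⟩ := h
      exact ⟨L, fun _ => hL⟩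
    · exact ⟨0, fun h' => absurd h' h⟩
  choose l hl using h
  let y' : YY := fun k => (max (y k).1 (max (f k) ((Finset.range (k + 1)).sup l)),
    fun m => if m < (y k).1 then (y k).2 m else !b)
  have hx : xs b y' = xs b y := by
    ext ⟨k, m⟩
    simp only [xs, y', mem_setOf_eq]
    by_cases h : m < (y k).1
    · simp [h]
    · simp [h]
  refine ⟨y', Eventually.of_forall fun k => ⟨le_max_left _ _, fun m hm => by simp [y', hm]⟩,
    fun k => (le_max_left _ _).trans (le_max_right _ _), fun n hn => ?_⟩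
  simp only [hx] at hn ⊢
  refine ⟨l n, hl n hn, fun k hk => ?_⟩
  exact ((Finset.le_sup (f := l) (Finset.mem_range.2 (Nat.lt_succ_iff.2 hk))).trans
    (le_max_right _ _)).trans (le_max_right _ _)

lemma mk_Tk : Cardinal.mk Tk ≤ Cardinal.continuum := by
  have h1 : Cardinal.mk (Set Code) ≤ Cardinal.continuum := by
    rw [Cardinal.mk_set, ← Cardinal.two_power_aleph0]
    exact Cardinal.power_le_power_left two_ne_zero Cardinal.mk_le_aleph0
  have h2 : Cardinal.mk (ℕ → Set Code) ≤ Cardinal.continuum := by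
    rw [← Cardinal.power_def, Cardinal.mk_nat, ← Cardinal.continuum_power_aleph0]
    exact Cardinal.power_le_power_right h1
  have h3 : Cardinal.mk (ℕ → ℕ) ≤ Cardinal.continuum := by simp
  have h4 : Cardinal.mk Bool ≤ Cardinal.continuum :=
    Cardinal.mk_le_aleph0.trans Cardinal.aleph0_le_continuum
  simp only [Tk, Cardinal.mk_prod, Cardinal.lift_id]
  exact Cardinal.mul_le_of_le Cardinal.aleph0_le_continuum h4
    (Cardinal.mul_le_of_le Cardinal.aleph0_le_continuum h2 h3)

lemma exists_chain (hCH : Cardinal.continuum.{0} = Cardinal.aleph 1) :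
    ∃ f : Tk → YY, (∀ s t, yle (f s) (f t) ∨ yle (f t) (f s)) ∧ ∀ t, Task t (f t) := by
  obtain ⟨r, hr, hc⟩ := Pool.Agent.H148Z.PH.exists_wo hCH Tk mk_Tk
  obtain ⟨f, h1, h2⟩ := Pool.Agent.H148Z.PH.exists_rec r hc
    (fun F : Set YY => ∀ a ∈ F, ∀ b ∈ F, yle a b ∨ yle b a)
    (fun F G h hG a ha b hb => hG a (h ha) b (h hb)) (fun a ha => ha.elim)
    (fun F h a ha b hb => h {a, b} (by
      rintro c (rfl | rfl)
      · exact ha
      · exact hb) (toFinite _) a (Or.inl rfl) b (Or.inr rfl)) Task (by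
      intro F hF hc t
      obtain ⟨y, hy⟩ := exists_ub F hF hc
      obtain ⟨y', h1, h2⟩ := exists_task y t
      refine ⟨y', ?_, h2⟩
      rintro a (rfl | ha) b (rfl | hb)
      · exact Or.inl (yle_refl _)
      · exact Or.inr (yle_trans (hy b hb) h1)
      · exact Or.inl (yle_trans (hy a ha) h1)
      · exact hc a ha b hb)
  exact ⟨f, fun s t => h1 _ ⟨s, rfl⟩ _ ⟨t, rfl⟩, h2⟩

lemma isCompact_PN (x : Set (ℕ × ℕ)) (N : ℕ) : IsCompact (PN x N) := by
  refine IsClosed.isCompact ?_
  have : PN x N = ⋂ p, (fun z : GG => z p) ⁻¹' {a | a ≠ 1 → p ∈ x ∨ p.1 < N} := by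
    ext z
    simp [PN]
  rw [this]
  exact isClosed_iInter fun p => (isClosed_discrete _).preimage (continuous_apply p)

lemma isOpen_sq (L : ℕ) (V : Set Code) : IsOpen {z : GG | sq L z ∈ V} := by
  have h : Continuous fun z : GG => fun p : Fin L × Fin L => z (p.1, p.2) :=
    continuous_pi fun p => continuous_apply _
  exact (isOpen_discrete {s : Fin L × Fin L → Gam | (⟨L, s⟩ : Code) ∈ V}).preimage h

lemma sq_eq_iff {L : ℕ} {z z' : GG} :
    sq L z = sq L z' ↔ ∀ k < L, ∀ m < L, z (k, m) = z' (k, m) := by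
  constructor
  · intro h k hk m hm
    have := congrFun (eq_of_heq (Sigma.mk.inj h).2) (⟨k, hk⟩, ⟨m, hm⟩)
    exact this
  · intro h
    unfold sq
    congr 1
    funext p
    exact h _ p.1.2 _ p.2.2

/-- the generators of colour `b` -/
def XX (f : Tk → YY) (b : Bool) : Set GG := {z | ∃ t N, z ∈ PN (xs b (f t)) N}

lemma hurewicz_XX (f : Tk → YY) (h1 : ∀ s t, yle (f s) (f t) ∨ yle (f t) (f s))
    (h2 : ∀ t, Task t (f t)) (b : Bool) (U : ℕ → Set (Set GG))
    (hU : ∀ n, (∀ u ∈ U n, IsOpen u) ∧ XX f b ⊆ ⋃₀ U n) :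
    ∃ F : ℕ → Finset (Set GG), (∀ n, (↑(F n) : Set (Set GG)) ⊆ U n) ∧
      ∀ x ∈ XX f b, ∀ᶠ n in atTop, x ∈ ⋃₀ ((↑(F n) : Set (Set GG))) := by
  classical
  let V : ℕ → Set Code := fun n => {c | ∃ u ∈ U n, ∀ z, sq c.1 z = c → z ∈ u}
  let t0 : Tk := (b, V, fun _ => 0)
  have hg : ∀ n, ∃ L, Good (xs b (f t0)) (V n) n L := by
    intro n
    have hmono : Monotone fun L => {z : GG | sq L z ∈ V n} := by
      rintro L L' hL z ⟨u, hu, h⟩
      refine ⟨u, hu, fun z' hz' => h z' ?_⟩
      exact sq_eq_iff.2 fun k hk m hm => sq_eq_iff.1 hz' k (hk.trans_le hL) m (hm.trans_le hL)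
    obtain ⟨L, hL⟩ := (isCompact_PN (xs b (f t0)) n).elim_directed_cover
      (fun L => {z : GG | sq L z ∈ V n}) (fun L => isOpen_sq L _) (by
        intro z hz
        obtain ⟨u, hu, hzu⟩ := (hU n).2 ⟨t0, n, hz⟩
        obtain ⟨I, v, hv, hsub⟩ := isOpen_pi_iff.1 ((hU n).1 u hu) z hzu
        refine mem_iUnion.2 ⟨I.sup (fun p => max p.1 p.2) + 1, u, hu, fun z' hz' => hsub ?_⟩
        intro p hp
        have h3 : max p.1 p.2 ≤ I.sup (fun p => max p.1 p.2) :=
          Finset.le_sup (f := fun p : ℕ × ℕ => max p.1 p.2) hp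
        have h4 := sq_eq_iff.1 hz' p.1 (Nat.lt_succ_of_le ((le_max_left _ _).trans h3)) p.2
          (Nat.lt_succ_of_le ((le_max_right _ _).trans h3))
        rw [show z' p = z p from h4]
        exact (hv p hp).2) hmono.directed_le
    exact ⟨L, fun z hz => hL hz⟩
  have hg' := fun n => (h2 t0).2 n (hg n)
  choose L hL hL' using hg'
  have hu : ∀ n (c : Code), c ∈ V n → ∃ u ∈ U n, ∀ z, sq c.1 z = c → z ∈ u := fun _ _ h => h
  choose! uu huu huu' using hu
  refine ⟨fun n => (Finset.univ.filter fun s : Fin (L n) × Fin (L n) → Gam =>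
    (⟨L n, s⟩ : Code) ∈ V n).image fun s => uu n ⟨L n, s⟩, fun n u hu => ?_, ?_⟩
  · simp only [Finset.coe_image, Finset.coe_filter, mem_image, mem_setOf_eq] at hu
    obtain ⟨s, hs, rfl⟩ := hu
    exact huu n _ hs.2
  · rintro z ⟨t, N, hz⟩
    have h3 : ∀ᶠ k in atTop, cle (f t0 k) (f t k) ∨ cle (f t k) (f t0 k) := by
      rcases h1 t0 t with h | h
      · exact h.mono fun _ => Or.inl
      · exact h.mono fun _ => Or.inr
    obtain ⟨k0, hk0⟩ := eventually_atTop.1 h3
    filter_upwards [eventually_ge_atTop N, eventually_ge_atTop k0] with n hn hn'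
    let z' : GG := fun p => if p.1 < L n ∧ p.2 < L n then z p else 1
    have h4 : z' ∈ PN (xs b (f t0)) n := by
      rintro ⟨k, m⟩ hp
      by_cases hk : k < n
      · exact Or.inr hk
      left
      have hk' : n ≤ k := not_lt.1 hk
      by_cases h5 : k < L n ∧ m < L n
      · simp only [z', h5, and_self, if_true] at hp
        rcases hz _ hp with h6 | h6
        · rcases hk0 k (hn'.trans hk') with h7 | h7
          · have h8 : m < (f t0 k).1 := h5.2.trans_le (hL' n k hk')
            exact ⟨h8, (h7.2 m h8).symm.trans h6.2⟩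
          · exact ⟨h6.1.trans_le h7.1, (h7.2 m h6.1).trans h6.2⟩
        · exact absurd (h6.trans_le hn) hk
      · simp [z', h5] at hp
    have h5 : sq (L n) z = sq (L n) z' := sq_eq_iff.2 fun k hk m hm => by simp [z', hk, hm]
    have h6 : sq (L n) z ∈ V n := h5 ▸ hL n z' h4
    refine ⟨uu n (sq (L n) z), ?_, huu' n _ h6 z rfl⟩
    simp only [Finset.coe_image, Finset.coe_filter, mem_image, mem_setOf_eq]
    exact ⟨_, ⟨Finset.mem_univ _, h6⟩, rfl⟩

lemma closure_XX (f : Tk → YY) (h2 : ∀ t, Task t (f t)) :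
    Subgroup.closure (XX f false ∪ XX f true) = HH := by
  classical
  apply le_antisymm
  · rw [Subgroup.closure_le]
    have : ∀ b, XX f b ⊆ HH := by
      rintro b z ⟨t, N, hz⟩
      refine mem_HH.2 ?_
      filter_upwards [eventually_ge_atTop N] with k hk
      filter_upwards [eventually_ge_atTop (f t k).1] with m hm
      by_contra h
      rcases hz _ h with h3 | h3
      · exact absurd h3.1 (not_lt.2 hm)
      · exact absurd h3 (not_lt.2 hk)
    exact union_subset (this _) (this _)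
  · intro z hz
    obtain ⟨N, hN⟩ := eventually_atTop.1 (mem_HH.1 hz)
    have h3 : ∀ k, N ≤ k → ∃ M, ∀ m, M ≤ m → z (k, m) = 1 := fun k hk =>
      eventually_atTop.1 (hN k hk)
    choose! g hg using h3
    let t : Tk := (true, fun _ => ∅, g)
    let z0 : GG := fun p => if (f t p.1).2 p.2 = false then z p else 1
    let z1 : GG := fun p => if (f t p.1).2 p.2 = false then 1 else z p
    have h4 : ∀ p : ℕ × ℕ, z p ≠ 1 → p.2 < (f t p.1).1 ∨ p.1 < N := by
      intro p hp
      by_cases h : p.1 < N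
      · exact Or.inr h
      left
      by_contra h5
      exact hp (hg p.1 (not_lt.1 h) p.2 (((h2 t).1 p.1).trans (not_lt.1 h5)))
    have h5 : z = z0 * z1 := by
      funext p
      by_cases h : (f t p.1).2 p.2 = false <;> simp [z0, z1, h]
    rw [h5]
    refine Subgroup.mul_mem _ (Subgroup.subset_closure (Or.inl ⟨t, N, fun p hp => ?_⟩))
      (Subgroup.subset_closure (Or.inr ⟨t, N, fun p hp => ?_⟩))
    · by_cases h : (f t p.1).2 p.2 = false
      · simp only [z0, h, if_true] at hp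
        exact (h4 p hp).imp (fun h6 => ⟨h6, h⟩) id
      · simp [z0, h] at hp
    · by_cases h : (f t p.1).2 p.2 = false
      · simp [z1, h] at hp
      · simp only [z1, h, if_false] at hp
        exact (h4 p hp).imp (fun h6 => ⟨h6, by simpa using h⟩) id

theorem question_of_CH (hCH : Cardinal.continuum.{0} = Cardinal.aleph 1) : Question := by
  classical
  obtain ⟨f, h1, h2⟩ := exists_chain hCH
  refine ⟨GG, inferInstance, { }, inferInstance, inferInstance,
    XX f false ∪ XX f true, ?_, ?_, ?_⟩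
  · rw [closure_XX f h2]; exact measurable_HH
  · rw [closure_XX f h2]; exact not_sigmaCompact_HH
  · intro U hU
    obtain ⟨F0, a0, b0⟩ := hurewicz_XX f h1 h2 false U
      fun n => ⟨(hU n).1, subset_union_left.trans (hU n).2⟩
    obtain ⟨F1, a1, b1⟩ := hurewicz_XX f h1 h2 true U
      fun n => ⟨(hU n).1, subset_union_right.trans (hU n).2⟩
    refine ⟨fun n => F0 n ∪ F1 n, fun n => ?_, ?_⟩
    · rw [Finset.coe_union]; exact union_subset (a0 n) (a1 n)
    · rintro x (hx | hx)
      · filter_upwards [b0 x hx] with n hn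
        rw [Finset.coe_union]; exact sUnion_subset_sUnion subset_union_left hn
      · filter_upwards [b1 x hx] with n hn
        rw [Finset.coe_union]; exact sUnion_subset_sUnion subset_union_right hn

end Pool.Agent.H489Z.BorH
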