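import Pool.Agent.Helper292.ForceCH

/-!
# Borel groups generated by Hurewicz sets: the statement and a principle of the Cohen model

The forcing language is the one of `Pool.Agent.Helper292.ForceCH`.
-/

set_option autoImplicit false

namespace Pool.Agent.H489Z.BorH

open Pool.Agent.Helper292.ForceCH

/-- The question: some Polish group has a subset with the Hurewicz property which generates a
Borel subgroup that is not sigma-compact. -/
def Question : Prop :=
  ∃ (G : Type) (_ : TopologicalSpace G) (_ : PolishSpace G) (_ : Group G)
    (_ : IsTopologicalGroup G) (X : Set G),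
    @MeasurableSet G (borel G) ((Subgroup.closure X : Subgroup G) : Set G) ∧
    ¬ IsSigmaCompact ((Subgroup.closure X : Subgroup G) : Set G) ∧
    ∀ U : ℕ → Set (Set G), (∀ n, (∀ u ∈ U n, IsOpen u) ∧ X ⊆ ⋃₀ U n) →
      ∃ F : ℕ → Finset (Set G), (∀ n, (↑(F n) : Set (Set G)) ⊆ U n) ∧
        ∀ x ∈ X, ∀ᶠ n in Filter.atTop, x ∈ ⋃₀ ((↑(F n) : Set (Set G)))

/-- `|T| < cov(M)`: for every family, indexed by `T`, of dense sets of finite binary words there
is a set `g` of natural numbers whose characteristic function has an initial segment in each
member of the family. -/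
def Cov (T : Type) : Prop :=
  ∀ D : T → Set (List Bool), (∀ t s, ∃ s', s <+: s' ∧ s' ∈ D t) →
    ∃ g : Set ℕ, ∀ t, ∃ s, s ∈ D t ∧ ∀ i : Fin s.length, (s.get i = true ↔ (i : ℕ) ∈ g)

/-- A reflection principle: for every total relation `R` on sequences of subsets of `ℕ` there is
a family `M`, indexed by `T`, of subsets of `ℕ` such that for every `x ⊆ ℕ` there are sequences
`A`, `B` with `R A B`, all terms of `A` in `M`, and each term of `B` which includes `x` including
a term of `A` which includes `x`. -/
def Refl (T : Type) : Prop :=
  ∀ R : (ℕ → Set ℕ) → (ℕ → Set ℕ) → Prop, (∀ A, ∃ B, R A B) →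
    ∃ M : T → Set ℕ, ∀ x : Set ℕ, ∃ A, ∃ B, R A B ∧ (∀ m, ∃ t, A m = M t) ∧
      ∀ n, x ⊆ B n → ∃ m, x ⊆ A m ∧ A m ⊆ B n

section

variable {P : Type} [Preorder P]

/-- The subset of `ℕ` named by `a` is included in the one named by `b`. -/
def fsub (a b : ℕ → Set P) : Set P := fall fun k => fimp (meets (a k)) (meets (b k))

/-- The names `a` and `b` name the same subset of `ℕ`. -/
def feq (a b : ℕ → Set P) : Set P := fall fun k => fiff (meets (a k)) (meets (b k))

/-- The pair of sequences named by `A`, `B` is in the relation named by `R`. A name for a relation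
on sequences of subsets of `ℕ` is a map `R` from pairs of names to sets of conditions; it names
the set of the values of the pairs `A'`, `B'` such that the generic filter meets `R A' B'`. -/
def InRel (R : (ℕ → ℕ → Set P) → (ℕ → ℕ → Set P) → Set P) (A B : ℕ → ℕ → Set P) : Set P :=
  fex fun A' => fex fun B' => fand (meets (R A' B'))
    (fand (fall fun m => feq (A m) (A' m)) (fall fun n => feq (B n) (B' n)))

variable (P)

/-- `Cov T` holds in the extension, for the ground model set `T`. -/
def CovHolds (T : Type) : Set P :=
  fall fun D : T → List Bool → Set P => fimp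
    (fall fun t => fall fun s => fex fun s' => fand (fground (s <+: s')) (meets (D t s')))
    (fex fun g : ℕ → Set P => fall fun t => fex fun s => fand (meets (D t s))
      (fall fun i : Fin s.length => fiff (fground (s.get i = true)) (meets (g i))))

/-- `Refl T` holds in the extension, for the ground model set `T`. -/
def ReflHolds (T : Type) : Set P :=
  fall fun R : (ℕ → ℕ → Set P) → (ℕ → ℕ → Set P) → Set P => fimp
    (fall fun A => fex fun B => InRel R A B)
    (fex fun M : T → ℕ → Set P => fall fun x : ℕ → Set P => fex fun A => fex fun B =>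
      fand (InRel R A B) (fand (fall fun m => fex fun t => feq (A m) (M t))
        (fall fun n => fimp (fsub x (B n))
          (fex fun m => fand (fsub x (A m)) (fsub (A m) (B n))))))

end

end Pool.Agent.H489Z.BorH
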