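import Pool.Agent.H489Z.BorH.Defs
import Pool.Agent.H252Z.Sel.Basic

set_option autoImplicit false

namespace Pool.Agent.H489Z.BorH

open Set Cardinal
open Pool.Agent.Helper292.ForceCH
open Pool.Agent.H252Z.Sel (Cond Supp supp_meets countable_conds exists_countable_name)
open Pool.Agent.H252Z.Sel.Cond

/-- closing off under a countable valued operation on countably supported data -/
lemma exists_closed {I X : Type} (supp F : X → Set I) (hs : ∀ x, (supp x).Countable)
    (hF : ∀ x, (F x).Countable)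
    (hc : ∀ J : Set I, Cardinal.mk J ≤ 𝔠 → Cardinal.mk {x | supp x ⊆ J} ≤ 𝔠) :
    ∃ J : Set I, Cardinal.mk J ≤ 𝔠 ∧ ∀ x, supp x ⊆ J → F x ⊆ J := by
  have wf : WellFounded (α := Om) (· < ·) := wellFounded_lt
  let JJ : Om → Set I := wf.fix fun a g =>
    ⋃ x : {x | supp x ⊆ ⋃ b : {b // b < a}, g b.1 b.2}, F x.1
  have hJ : ∀ a, JJ a = ⋃ x : {x | supp x ⊆ ⋃ b : {b // b < a}, JJ b.1}, F x.1 := by
    intro a
    exact wf.fix_eq (C := fun _ => Set I) (fun a g =>
      ⋃ x : {x | supp x ⊆ ⋃ b : {b // b < a}, g b.1 b.2}, F x.1) a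
  have hU : ∀ {ι : Type} (s : ι → Set I), Cardinal.mk ι ≤ 𝔠 → (∀ i, Cardinal.mk (s i) ≤ 𝔠) →
      Cardinal.mk (⋃ i, s i) ≤ 𝔠 := by
    intro ι s h1 h2
    refine (mk_iUnion_le s).trans (mul_le_of_le aleph0_le_continuum h1 (ciSup_le' h2))
  have hcard : ∀ a, Cardinal.mk (JJ a) ≤ 𝔠 := by
    intro a
    induction a using wf.induction with
    | _ a ih =>
      rw [hJ]
      have := countable_Iio a
      refine hU _ (hc _ (hU _ (mk_le_aleph0.trans aleph0_le_continuum) fun b => ih b.1 b.2))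
        fun x => (hF x.1).le_aleph0.trans aleph0_le_continuum
  refine ⟨⋃ a, JJ a, hU _ ?_ hcard, fun x hx => ?_⟩
  · have : Cardinal.mk Om = ℵ₁ := by simp
    rw [this]
    exact aleph_one_le_continuum
  · have h1 : ∃ a : Om, supp x ⊆ ⋃ b : {b // b < a}, JJ b.1 := by
      rcases (supp x).eq_empty_or_nonempty with h | h
      · obtain ⟨a⟩ : Nonempty Om := inferInstance
        exact ⟨a, h ▸ empty_subset _⟩
      · obtain ⟨e, he⟩ := (hs x).exists_eq_range h
        have h2 : ∀ n, ∃ a, e n ∈ JJ a := fun n => mem_iUnion.1 (hx (he ▸ ⟨n, rfl⟩))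
        choose f hf using h2
        obtain ⟨a, ha⟩ := exists_bound f
        refine ⟨a, ?_⟩
        rw [he]
        rintro _ ⟨n, rfl⟩
        exact mem_iUnion.2 ⟨⟨f n, ha n⟩, hf n⟩
    obtain ⟨a, ha⟩ := h1
    refine Subset.trans ?_ (subset_iUnion _ a)
    rw [hJ]
    exact subset_iUnion (fun x : {x | supp x ⊆ ⋃ b : {b // b < a}, JJ b.1} => F x.1) ⟨x, ha⟩

variable {I : Type}

/-- the coordinates used by a set of conditions -/
def dm (N : Set (Cond I)) : Set I := {i | ∃ s ∈ N, ∃ b, (i, b) ∈ s.s}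

lemma countable_dm {N : Set (Cond I)} (h : N.Countable) : (dm N).Countable := by
  have : dm N = ⋃ s ∈ N, Prod.fst '' (s.s : Set (I × Bool)) := by
    ext i
    simp [dm]
  rw [this]
  exact h.biUnion fun s _ => ((Finset.finite_toSet _).image _).countable

lemma exists_supp (N : Set (Cond I)) : ∃ S : Set I, S.Countable ∧
    ∀ J, S ⊆ J → ∀ p ∈ meets N, res J p ∈ meets N := by
  obtain ⟨N', h1, h2⟩ := exists_countable_name N
  refine ⟨dm N', countable_dm h1, fun J hJ p hp => ?_⟩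
  have h3 : Supp J (Pool.Agent.H252Z.Sel.meets N') :=
    supp_meets fun s hs x hx => hJ ⟨s, hs, x.2, hx⟩
  rw [h2] at h3
  exact h3 p hp

/-- the conditions supported by `J` -/
def CJ (J : Set I) : Set (Cond I) := {r | ∀ x ∈ r.s, x.1 ∈ J}

lemma mk_CJ {J : Set I} (h : Cardinal.mk J ≤ 𝔠) : Cardinal.mk (CJ J) ≤ 𝔠 := by
  classical
  have h1 : Cardinal.mk (J ×ˢ (univ : Set Bool) : Set (I × Bool)) ≤ 𝔠 := by
    rw [mk_setProd]
    exact mul_le_of_le aleph0_le_continuum h (mk_le_aleph0.trans aleph0_le_continuum)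
  have h2 := mk_bounded_subset_le (J ×ˢ (univ : Set Bool)) ℵ₀
  have h3 : max (Cardinal.mk (J ×ˢ (univ : Set Bool) : Set (I × Bool))) ℵ₀ ^ ℵ₀ ≤ 𝔠 := by
    rw [← continuum_power_aleph0]
    exact power_le_power_right (max_le h1 aleph0_le_continuum)
  refine le_trans (mk_le_of_injective (f := fun r : CJ J =>
    (⟨(r.1.s : Set (I × Bool)), fun x hx => ⟨r.2 x hx, trivial⟩,
      (Finset.finite_toSet _).countable.le_aleph0⟩ :
      {t : Set (I × Bool) // t ⊆ J ×ˢ (univ : Set Bool) ∧ Cardinal.mk t ≤ ℵ₀})) ?_) (h2.trans h3)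
  rintro ⟨⟨a, ha⟩, _⟩ ⟨⟨b, hb⟩, _⟩ hab
  simpa using hab

/-- countable sets of conditions supported by `J` -/
def NJ (J : Set I) : Type := {t : Set (Cond I) // t ⊆ CJ J ∧ Cardinal.mk t ≤ ℵ₀}

lemma mk_NJ {J : Set I} (h : Cardinal.mk J ≤ 𝔠) : Cardinal.mk (NJ J) ≤ 𝔠 := by
  refine (mk_bounded_subset_le (CJ J) ℵ₀).trans ?_
  rw [← continuum_power_aleph0]
  exact power_le_power_right (max_le (mk_CJ h) aleph0_le_continuum)

lemma mk_fun_le {A : Type} (h : Cardinal.mk A ≤ 𝔠) : Cardinal.mk (ℕ → A) ≤ 𝔠 := by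
  rw [← power_def, mk_nat, ← continuum_power_aleph0]
  exact power_le_power_right h

lemma mem_meets_of_le {N : Set (Cond I)} {p s : Cond I} (hs : s ∈ N) (h : p ≤ s) : p ∈ meets N :=
  fun q hq => ⟨q, le_rfl, s, hs, hq.trans h⟩

lemma fex_intro {ι : Type} {φ : ι → Set (Cond I)} {p : Cond I} (i : ι) (hd : Down (φ i))
    (h : p ∈ φ i) : p ∈ fex φ :=
  mem_fex.2 fun q hq => ⟨q, le_rfl, i, hd p h q hq⟩

lemma down_fsub (a b : ℕ → Set (Cond I)) : Down (fsub a b) := down_fall fun _ => down_fimp _ _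

lemma feq_refl (a : ℕ → Set (Cond I)) (p : Cond I) : p ∈ feq a a :=
  fun _ => ⟨fimp_of fun _ _ h => h, fimp_of fun _ _ h => h⟩

lemma down_feq (a b : ℕ → Set (Cond I)) : Down (feq a b) :=
  down_fall fun _ => down_fand (down_fimp _ _) (down_fimp _ _)

theorem reflHolds (p : Cond I) : p ∈ ReflHolds (Cond I) (Set ℕ) := by
  classical
  intro R
  refine fimp_of fun q _ hq => ?_
  let X := {A : ℕ → ℕ → Set (Cond I) // ∀ m k, (A m k).Countable} × Cond I
  have hch : ∀ x : X, ∃ s : Cond I, ∃ B, (∃ s' ≤ x.2, ∃ B', s' ∈ InRel R x.1.1 B') →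
      s ≤ x.2 ∧ s ∈ InRel R x.1.1 B := by
    intro x
    by_cases h : ∃ s' ≤ x.2, ∃ B', s' ∈ InRel R x.1.1 B'
    · obtain ⟨s, h1, B, h2⟩ := h
      exact ⟨s, B, fun _ => ⟨h1, h2⟩⟩
    · exact ⟨x.2, x.1.1, fun h' => absurd h' h⟩
  choose sx Bx hx using hch
  choose Sp hSp1 hSp2 using exists_supp (I := I)
  obtain ⟨J, hJ1, hJ2⟩ := exists_closed (I := I) (X := X)
    (fun x => (⋃ m, ⋃ k, dm (x.1.1 m k)) ∪ dm {x.2})
    (fun x => dm {sx x} ∪ ⋃ n, ⋃ k, Sp (Bx x n k))
    (fun x => (countable_iUnion fun m => countable_iUnion fun k => countable_dm (x.1.2 m k)).union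
      (countable_dm (countable_singleton _)))
    (fun x => (countable_dm (countable_singleton _)).union
      (countable_iUnion fun _ => countable_iUnion fun _ => hSp1 _)) (by
      intro J hJ
      have h1 : Cardinal.mk ((ℕ → ℕ → NJ J) × CJ J) ≤ 𝔠 := by
        simp only [mk_prod, lift_id]
        exact mul_le_of_le aleph0_le_continuum (mk_fun_le (mk_fun_le (mk_NJ hJ))) (mk_CJ hJ)
      refine le_trans (mk_le_of_injective (f := fun x : {x : X |
          (⋃ m, ⋃ k, dm (x.1.1 m k)) ∪ dm {x.2} ⊆ J} =>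
        ((fun m k => ⟨x.1.1.1 m k, fun s hs y hy => x.2 (Or.inl (mem_iUnion.2 ⟨m, mem_iUnion.2
            ⟨k, s, hs, y.2, hy⟩⟩)), (x.1.1.2 m k).le_aleph0⟩,
          ⟨x.1.2, fun y hy => x.2 (Or.inr ⟨_, rfl, y.2, hy⟩)⟩) : (ℕ → ℕ → NJ J) × CJ J)) ?_) h1
      rintro ⟨⟨⟨A, hA⟩, r⟩, _⟩ ⟨⟨⟨A', hA'⟩, r'⟩, _⟩ h
      have h2 := congrArg Prod.fst h
      have h3 := congrArg (fun z => z.2.1) h
      have h4 : A = A' := by
        funext m k
        exact congrArg Subtype.val (congrFun (congrFun h2 m) k)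
      simp only at h3
      subst h4
      subst h3
      rfl)
  have hM : ∃ M : Set ℕ → ℕ → NJ J, Function.Surjective M := by
    have h1 : Cardinal.mk (ℕ → NJ J) ≤ Cardinal.mk (Set ℕ) := by
      rw [mk_set, mk_nat, two_power_aleph0]
      exact mk_fun_le (mk_NJ hJ1)
    obtain ⟨f⟩ := (Cardinal.le_def _ _).1 h1
    have : Nonempty (ℕ → NJ J) := ⟨fun _ => ⟨∅, empty_subset _, by simp⟩⟩
    exact ⟨Function.invFun f, Function.invFun_surjective f.injective⟩
  obtain ⟨M, hM⟩ := hM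
  refine fex_intro (fun t k => (M t k).1) (down_fall fun _ => down_fex _) fun x => ?_
  let S : Set I := ⋃ k, Sp (x k)
  have hS : S.Countable := countable_iUnion fun _ => hSp1 _
  have hSx : ∀ k, ∀ v ∈ meets (x k), res S v ∈ meets (x k) := fun k =>
    hSp2 _ S (subset_iUnion (fun k => Sp (x k)) k)
  obtain ⟨e, he⟩ := (countable_conds hS).exists_eq_range ⟨res S p, fun y hy => (mem_res.1 hy).2⟩
  let A : ℕ → ℕ → Set (Cond I) := fun m k =>
    res J '' {r | (∀ y ∈ r.s, y.1 ∈ S) ∧ r ≤ e m ∧ r ∈ meets (x k)}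
  have hA : ∀ m k, (A m k).Countable := fun m k =>
    ((countable_conds hS).mono fun r hr => hr.1).image _
  have hAJ : ∀ m k, A m k ⊆ CJ J := by
    rintro m k _ ⟨r, _, rfl⟩ y hy
    exact (mem_res.1 hy).2
  refine fex_intro A (down_fex _) (mem_fex.2 fun q' hq' => ?_)
  let z : X := (⟨A, hA⟩, res J q')
  obtain ⟨s0, hs0, B0, hB0⟩ := mem_fex.1 (hq A) q' hq'
  obtain ⟨h1, h2⟩ := hx z ⟨s0, hs0.trans (le_res J q'), B0, hB0⟩
  have h3 := hJ2 z (by
    rintro i (hi | ⟨s, rfl, b, hb⟩)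
    · simp only [mem_iUnion] at hi
      obtain ⟨m, k, s, hs, b, hb⟩ := hi
      exact hAJ m k hs _ hb
    · exact (mem_res.1 hb).2)
  have hB : ∀ n k, ∀ v ∈ meets (Bx z n k), res J v ∈ meets (Bx z n k) := fun n k =>
    hSp2 _ J fun i hi => h3 (Or.inr (mem_iUnion.2 ⟨n, mem_iUnion.2 ⟨k, hi⟩⟩))
  obtain ⟨u, u1, u2, -, -⟩ := amalg h1
  have u3 : u ≤ sx z := u2.trans (res_le_of le_rfl fun y hy => h3 (Or.inl ⟨_, rfl, y.2, hy⟩))
  refine ⟨u, u1, Bx z, down_fex _ _ h2 _ u3, fun m => ?_, fun n => fimp_of fun v _ hv => ?_⟩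
  · obtain ⟨t, ht⟩ := hM fun k => ⟨A m k, hAJ m k, (hA m k).le_aleph0⟩
    refine fex_intro t (down_feq _ _) ?_
    have : (fun k => (M t k).1) = A m := by
      funext k
      rw [ht]
    simp only [this]
    exact feq_refl _ _
  · have h4 : res S v ∈ range e := he ▸ fun y hy => (mem_res.1 hy).2
    obtain ⟨m, hm⟩ := h4
    refine fex_intro m (down_fand (down_fsub _ _) (down_fsub _ _)) ⟨fun k => ?_, fun k => ?_⟩
    · refine fimp_of fun w hw h5 => ?_
      refine mem_meets_of_le (s := res J (res S w)) ⟨res S w, ⟨fun y hy => (mem_res.1 hy).2,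
        hm ▸ res_mono S hw, hSx k w h5⟩, rfl⟩ ((le_res S w).trans (le_res J _))
    · refine mem_fimp.2 fun w hw h5 => ?_
      obtain ⟨w', hw', _, ⟨r, ⟨r1, r2, r3⟩, rfl⟩, h6⟩ := h5 w le_rfl
      obtain ⟨a, a1, a2, a3, -⟩ := amalg (S := S) (p := v) (q := r) (hm ▸ r2)
      have a4 : a ≤ r := a2.trans (res_le_of le_rfl r1)
      have h7 : w' ≤ res J a := by
        intro y hy
        rcases a3 y (mem_res.1 hy).1 with h8 | h8
        · exact (hw'.trans hw) h8
        · exact h6 (mem_res.2 ⟨(mem_res.1 h8).1, (mem_res.1 hy).2⟩)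
      obtain ⟨c, c1, c2, -, -⟩ := amalg h7
      obtain ⟨d, d1, d2⟩ := mem_fimp.1 (hv k) c (c1.trans a1)
        (down_meets _ _ r3 _ (c1.trans a4))
      have h8 : res J d ≤ res J w' :=
        res_le_of (d1.trans c2) fun y hy => (mem_res.1 hy).2
      obtain ⟨f, f1, f2, -, -⟩ := amalg h8
      exact ⟨f, f1.trans hw', down_meets _ _ (hB n k _ (hB n k _ d2)) _ f2⟩

/-- the coordinates of the forcing -/
abbrev II : Type := Set (Set ℕ) × ℕ

theorem covHolds (p : Cond II) : p ∈ CovHolds (Cond II) (Set ℕ) := by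
  classical
  intro D
  refine fimp_of fun q _ hq => ?_
  choose Sp hSp1 hSp2 using exists_supp (I := II)
  have h1 : ∃ a : Set (Set ℕ), ∀ t s, ∀ i ∈ Sp (D t s), i.1 ≠ a := by
    by_contra hcon
    push Not at hcon
    have h2 : (univ : Set (Set (Set ℕ))) ⊆
        ⋃ z : Set ℕ × List Bool, Prod.fst '' Sp (D z.1 z.2) := by
      intro a _
      obtain ⟨t, s, i, h3, h4⟩ := hcon a
      exact mem_iUnion.2 ⟨(t, s), i, h3, h4⟩
    have h3 := mk_le_mk_of_subset h2
    have h4 : Cardinal.mk (Set ℕ × List Bool) ≤ 𝔠 := by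
      simp only [mk_prod, lift_id]
      refine mul_le_of_le aleph0_le_continuum ?_ (mk_le_aleph0.trans aleph0_le_continuum)
      rw [mk_set, mk_nat, two_power_aleph0]
    have h5 := h3.trans ((mk_iUnion_le _).trans (mul_le_of_le aleph0_le_continuum h4
      (ciSup_le' fun z => (((hSp1 _).image _).le_aleph0.trans aleph0_le_continuum))))
    rw [mk_univ, mk_set, mk_set, mk_nat, two_power_aleph0] at h5
    exact absurd h5 (not_le.2 (cantor _))
  obtain ⟨a, ha⟩ := h1
  refine fex_intro (fun i => {r : Cond II | ((a, i), true) ∈ r.s})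
    (down_fall fun _ => down_fex _) fun t => mem_fex.2 fun q' hq' => ?_
  let L := q'.s.sup (fun y => y.1.2) + 1
  let s0 : List Bool := (List.range L).map fun i => decide (((a, i), true) ∈ q'.s)
  obtain ⟨r, hr, s, hs1, hs2⟩ := mem_fex.1 (hq t s0) q' hq'
  have hs3 : res {i | i.1 ≠ a} r ∈ meets (D t s) := hSp2 _ _ (fun i hi => ha t s i hi) r hs2
  let w : Cond II := ⟨Finset.univ.image fun i : Fin s.length => ((a, (i : ℕ)), s.get i), by
    intro i h1 h2
    simp only [Finset.mem_image, Finset.mem_univ, true_and, Prod.mk.injEq] at h1 h2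
    obtain ⟨j, j1, j2⟩ := h1
    obtain ⟨k, k1, k2⟩ := h2
    have : j = k := Fin.ext (congrArg Prod.snd (j1.trans k1.symm))
    subst this
    rw [j2] at k2
    exact absurd k2 (by simp)⟩
  have hw : ∀ i : Fin s.length, ((a, (i : ℕ)), s.get i) ∈ w.s := fun i =>
    Finset.mem_image.2 ⟨i, Finset.mem_univ _, rfl⟩
  obtain ⟨u, u1, u2, -⟩ := exists_union (res {i | i.1 ≠ a} r) w (by
    intro i b h1 h2
    obtain ⟨j, -, hj⟩ := Finset.mem_image.1 h2
    exact (mem_res.1 h1).2 (congrArg (fun y => y.1.1) hj).symm)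
  refine ⟨u, ?_, s, down_meets _ _ hs3 _ u1, fun i => ⟨?_, ?_⟩⟩
  · rintro ⟨⟨a', i⟩, b⟩ hy
    by_cases h : a' = a
    · subst h
      have h2 : i < L := Nat.lt_succ_of_le (Finset.le_sup (f := fun y : II × Bool => y.1.2) hy)
      have h3 : i < s0.length := by simpa [s0] using h2
      have h4 : i < s.length := h3.trans_le (List.IsPrefix.length_le hs1)
      have h5 : s.get ⟨i, h4⟩ = b := by
        rw [List.get_eq_getElem, ← List.IsPrefix.getElem hs1 h3]
        simp only [s0, List.getElem_map, List.getElem_range]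
        cases b
        · simpa using not_both hy
        · simpa using hy
      exact u2 (h5 ▸ hw ⟨i, h4⟩)
    · exact u1 (mem_res.2 ⟨hr hy, h⟩)
  · refine fimp_of fun v hv h => ?_
    have h2 : s.get i = true := h
    exact mem_meets_of_le (s := w) (h2 ▸ hw i) (hv.trans u2)
  · refine fimp_of fun v hv h => ?_
    obtain ⟨v', h1, s', h2, h3⟩ := h v le_rfl
    show s.get i = true
    by_contra h4
    have h5 : s.get i = false := by simpa using h4
    exact v'.fn _ (h3 h2) (((h1.trans hv).trans u2) (h5 ▸ hw i))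

theorem exists_forcing_refl : ∃ (P : Type) (_ : Preorder P) (T : Type), Nonempty P ∧ Infinite T ∧
    ∀ p : P, p ∈ CovHolds P T ∧ p ∈ ReflHolds P T :=
  ⟨Cond II, inferInstance, Set ℕ, ⟨⟨∅, by simp⟩⟩, inferInstance,
    fun p => ⟨covHolds p, reflHolds p⟩⟩

end Pool.Agent.H489Z.BorH
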