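import Pool.Agent.H489Z.BorH.Defs

set_option autoImplicit false

namespace Pool.Agent.H489Z.BorH

open Set Filter Topology

/-- Martin's axiom for countable orders from `Cov`. -/
lemma ma_countable {T : Type} (hT : Cov T) {Q : Type} [Countable Q] (le : Q → Q → Prop)
    (hr : ∀ q, le q q) (q0 : Q) (E : T → Set Q) (hE : ∀ t q, ∃ q' ∈ E t, le q' q) :
    ∃ c : ℕ → Q, (∀ n, le (c (n + 1)) (c n)) ∧ ∀ t, ∃ n, c n ∈ E t := by
  classical
  have : Nonempty Q := ⟨q0⟩
  obtain ⟨e, he⟩ := exists_surjective_nat Q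
  let step : Q × ℕ → Bool → Q × ℕ := fun s b =>
    if b then (s.1, s.2 + 1) else
      (if le (e (Nat.unpair s.2).2) s.1 then e (Nat.unpair s.2).2 else s.1, 0)
  let st : List Bool → Q × ℕ := fun u => u.foldl step (q0, 0)
  have hstep : ∀ s b, le (step s b).1 s.1 := by
    intro s b
    cases b
    · by_cases h : le (e (Nat.unpair s.2).2) s.1
      · simp [step, h]
      · simp [step, h, hr]
    · simp [step, hr]
  have hrep : ∀ (j : ℕ) (s : Q × ℕ), (List.replicate j true).foldl step s = (s.1, s.2 + j) := by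
    intro j
    induction j with
    | zero => intro s; rfl
    | succ j ih =>
      intro s
      rw [List.replicate_succ, List.foldl_cons, ih]
      simp [step, Nat.add_assoc, Nat.add_comm 1 j]
  obtain ⟨g, hg⟩ := hT (fun t => {u | (st u).1 ∈ E t}) (by
    intro t u
    obtain ⟨q', h1, h2⟩ := hE t (st u).1
    obtain ⟨k, rfl⟩ := he q'
    refine ⟨u ++ (List.replicate (Nat.pair (st u).2 k - (st u).2) true ++ [false]),
      List.prefix_append _ _, ?_⟩
    have h3 : (st u).2 + (Nat.pair (st u).2 k - (st u).2) = Nat.pair (st u).2 k :=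
      Nat.add_sub_cancel' (Nat.left_le_pair _ _)
    have h4 : st (u ++ (List.replicate (Nat.pair (st u).2 k - (st u).2) true ++ [false])) =
        step ((st u).1, Nat.pair (st u).2 k) false := by
      show List.foldl step (q0, 0) _ = _
      rw [List.foldl_append, List.foldl_append, hrep]
      show step ((st u).1, (st u).2 + _) false = _
      rw [h3]
    show (st _).1 ∈ E t
    rw [h4]
    simpa [step, h2] using h1)
  let w : ℕ → List Bool := fun n => (List.range n).map fun i => decide (i ∈ g)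
  refine ⟨fun n => (st (w n)).1, fun n => ?_, fun t => ?_⟩
  · have : st (w (n + 1)) = step (st (w n)) (decide (n ∈ g)) := by
      simp only [st, w, List.range_succ, List.map_append, List.foldl_append, List.map_cons,
        List.map_nil, List.foldl_cons, List.foldl_nil]
    show le (st (w (n + 1))).1 _
    rw [this]
    exact hstep _ _
  · obtain ⟨s, hs, h⟩ := hg t
    refine ⟨s.length, ?_⟩
    have : w s.length = s := by
      refine List.ext_getElem (by simp [w]) fun i h1 h2 => ?_
      have h3 := h ⟨i, h2⟩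
      simp only [List.get_eq_getElem] at h3
      simp only [w, List.getElem_map, List.getElem_range]
      by_cases h4 : i ∈ g
      · simp [h4, h3.2 h4]
      · have : s[i] = false := by
          by_contra h5
          exact h4 (h3.1 (by simpa using h5))
        simp [h4, this]
    show (st (w s.length)).1 ∈ E t
    rw [this]
    exact hs

lemma sigma_union {G : Type} [TopologicalSpace G] {s t : Set G} (hs : IsSigmaCompact s)
    (ht : IsSigmaCompact t) : IsSigmaCompact (s ∪ t) := by
  rw [union_eq_iUnion]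
  refine isSigmaCompact_iUnion _ fun b => ?_
  cases b
  · exact ht
  · exact hs

/-- An analytic set which is a union of fewer than `cov(M)` compact sets is sigma-compact. -/
lemma sigmaCompact_of_cover {T : Type} (hT : Cov T) {G : Type} [TopologicalSpace G] [T2Space G]
    (φ : (ℕ → ℕ) → G) (hφ : Continuous φ) {S : Type} (π : T → S × ℕ) (hπ : Function.Surjective π)
    (K : S → Set G) (hK : ∀ s, IsCompact (K s)) (hKs : ∀ s, K s ⊆ range φ)
    (hcov : ∀ z, ∃ s, φ z ∈ K s) : IsSigmaCompact (range φ) := by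
  classical
  let cyl : ℕ × (ℕ →₀ ℕ) → Set (ℕ → ℕ) := fun q => {z | ∀ i < q.1, z i = q.2 i}
  let small : ℕ × (ℕ →₀ ℕ) → Prop := fun q =>
    ∃ W, IsSigmaCompact W ∧ W ⊆ range φ ∧ ∀ z ∈ cyl q, φ z ∈ W
  let tr : (ℕ → ℕ) → ℕ → ℕ × (ℕ →₀ ℕ) := fun z m =>
    (m, Finsupp.onFinset (Finset.range m) (fun i => if i < m then z i else 0) (by
      intro i hi
      by_contra h
      exact hi (by simp [show ¬ i < m from fun h' => h (Finset.mem_range.2 h')])))
  have htr : ∀ z m i, i < m → (tr z m).2 i = z i := by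
    intro z m i hi
    simp [tr, hi]
  by_contra hns
  have h0 : ¬ small (0, 0) := by
    rintro ⟨W, h1, h2, h3⟩
    apply hns
    have : range φ = W := Subset.antisymm (by
      rintro _ ⟨z, rfl⟩
      exact h3 z fun i hi => absurd hi (Nat.not_lt_zero _)) h2
    rwa [this]
  have hsm : ∀ q, small q → ∃ W, IsSigmaCompact W ∧ W ⊆ range φ ∧ ∀ z ∈ cyl q, φ z ∈ W :=
    fun _ h => h
  choose W hW1 hW2 hW3 using hsm
  let Q := {q : ℕ × (ℕ →₀ ℕ) // ¬ small q}
  let le : Q → Q → Prop := fun q' q => q.1.1 ≤ q'.1.1 ∧ ∀ i < q.1.1, q'.1.2 i = q.1.2 i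
  obtain ⟨c, hc1, hc2⟩ := ma_countable hT le (fun q => ⟨le_rfl, fun _ _ => rfl⟩) ⟨(0, 0), h0⟩
    (fun t => {q | (π t).2 < q.1.1 ∧ ∀ z ∈ cyl q.1, φ z ∉ K (π t).1}) (by
      intro t q
      by_contra hcon
      push Not at hcon
      apply q.2
      refine ⟨K (π t).1 ∪ ⋃ q' : {q' // small q'}, W q'.1 q'.2,
        sigma_union (hK _).isSigmaCompact
          (isSigmaCompact_iUnion _ fun q' => hW1 _ _),
        union_subset (hKs _) (iUnion_subset fun q' => hW2 _ _), fun z hz => ?_⟩
      by_cases h1 : ∃ m, small (tr z m)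
      · obtain ⟨m, hm⟩ := h1
        exact Or.inr (mem_iUnion.2 ⟨⟨_, hm⟩, hW3 _ hm z fun i hi => (htr z m i hi).symm⟩)
      push Not at h1
      left
      by_contra h2
      obtain ⟨I, u, hu, hsub⟩ := isOpen_pi_iff.1 ((hK (π t).1).isClosed.isOpen_compl.preimage hφ)
        z h2
      let m := max (I.sup id) (max (π t).2 q.1.1) + 1
      have hm1 : q.1.1 < m := Nat.lt_succ_of_le ((le_max_right _ _).trans (le_max_right _ _))
      have hm2 : (π t).2 < m := Nat.lt_succ_of_le ((le_max_left _ _).trans (le_max_right _ _))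
      refine hcon ⟨tr z m, h1 m⟩ ⟨hm2, fun z' hz' => hsub fun i hi => ?_⟩
        ⟨hm1.le, fun i hi => (htr z m i (hi.trans hm1)).trans (hz i hi)⟩
      have h3 : i < m := Nat.lt_succ_of_le ((Finset.le_sup (f := id) hi).trans (le_max_left _ _))
      rw [hz' i h3, htr z m i h3]
      exact (hu i hi).2)
  have hmono : ∀ a b, a ≤ b → le (c b) (c a) := by
    intro a b hab
    induction hab with
    | refl => exact ⟨le_rfl, fun _ _ => rfl⟩
    | step _ ih =>
      exact ⟨ih.1.trans (hc1 _).1, fun i hi => ((hc1 _).2 i (hi.trans_le ih.1)).trans (ih.2 i hi)⟩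
  obtain ⟨s0, -⟩ := hcov fun _ => 0
  have hlen : ∀ i, ∃ n, i < (c n).1.1 := by
    intro i
    obtain ⟨t, ht⟩ := hπ (s0, i)
    obtain ⟨n, hn⟩ := hc2 t
    exact ⟨n, by simpa [ht] using hn.1⟩
  choose ν hν using hlen
  let z : ℕ → ℕ := fun i => (c (ν i)).1.2 i
  have hz : ∀ n, z ∈ cyl (c n).1 := by
    intro n i hi
    rcases le_total n (ν i) with h | h
    · exact (hmono _ _ h).2 i hi
    · exact ((hmono _ _ h).2 i (hν i)).symm
  obtain ⟨s, hs⟩ := hcov z
  obtain ⟨t, ht⟩ := hπ (s, 0)
  obtain ⟨n, hn⟩ := hc2 t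
  exact hn.2 z (hz n) (by simpa [ht] using hs)

/-- Under `Refl T` a Hurewicz set is the union of a family, indexed by `T`, of compact sets. -/
lemma union_compact {T : Type} (hT : Refl T) {G : Type} [TopologicalSpace G] [PolishSpace G]
    [Nonempty G] (X : Set G)
    (hX : ∀ U : ℕ → Set (Set G), (∀ n, (∀ u ∈ U n, IsOpen u) ∧ X ⊆ ⋃₀ U n) →
      ∃ F : ℕ → Finset (Set G), (∀ n, (↑(F n) : Set (Set G)) ⊆ U n) ∧
        ∀ x ∈ X, ∀ᶠ n in Filter.atTop, x ∈ ⋃₀ ((↑(F n) : Set (Set G)))) :
    ∃ K : T → Set G, (∀ t, IsCompact (K t)) ∧ (∀ t, K t ⊆ X) ∧ ∀ x ∈ X, ∃ t, x ∈ K t := by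
  classical
  let _ := TopologicalSpace.upgradeIsCompletelyMetrizable G
  obtain ⟨b, hbc, -, hb⟩ := TopologicalSpace.exists_countable_basis G
  have hne : b.Nonempty := by
    obtain ⟨x⟩ := ‹Nonempty G›
    obtain ⟨v, hv, -⟩ := hb.exists_subset_of_mem_open (mem_univ x) isOpen_univ
    exact ⟨v, hv⟩
  obtain ⟨U, rfl⟩ := hbc.exists_eq_range hne
  let code : G → Set ℕ := fun y => {n | y ∈ U n}
  let C : Set ℕ → Set G := fun A => {y | code y ⊆ A}
  have hC : ∀ A, IsClosed (C A) := by
    intro A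
    have : C A = ⋂ n, ⋂ _ : n ∉ A, (U n)ᶜ := by
      ext y
      simp only [C, code, mem_setOf_eq, mem_iInter, mem_compl_iff]
      exact ⟨fun h n hn hy => hn (h hy), fun h n hy => by_contra fun hn => h n hn hy⟩
    rw [this]
    exact isClosed_iInter fun n => isClosed_iInter fun _ => (hb.isOpen ⟨n, rfl⟩).isClosed_compl
  have hCF : ∀ F, IsClosed F → C {n | (U n ∩ F).Nonempty} = F := by
    intro F hF
    ext y
    constructor
    · intro h
      by_contra hy
      obtain ⟨_, ⟨n, rfl⟩, h1, h2⟩ := hb.exists_subset_of_mem_open (show y ∈ Fᶜ from hy)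
        hF.isOpen_compl
      obtain ⟨w, h3, h4⟩ := h h1
      exact h2 h3 h4
    · intro h n hn
      exact ⟨y, hn, h⟩
  obtain ⟨M, hM⟩ := hT (fun A B => (∀ n, IsCompact (C (B n)) ∧
      ∀ m, C (A m) ⊆ C (B n) → C (A m) ⊆ X) ∧ ∀ x ∈ X, ∃ n, code x ⊆ B n) (by
    intro A
    have h1 : ∀ m, ∃ Y : Set G, Y.Finite ∧ Disjoint Y X ∧ (C (A m) ⊆ X ∨ (Y ∩ C (A m)).Nonempty) := by
      intro m
      by_cases h : C (A m) ⊆ X
      · exact ⟨∅, finite_empty, empty_disjoint _, Or.inl h⟩
      · obtain ⟨y, h1, h2⟩ := not_subset.1 h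
        exact ⟨{y}, finite_singleton _, disjoint_singleton_left.2 h2, Or.inr ⟨y, rfl, h1⟩⟩
    choose Y hY1 hY2 hY3 using h1
    obtain ⟨F, hF1, hF2⟩ := hX (fun k => {V | IsOpen V ∧
        (∃ c, closure V ⊆ Metric.closedBall c (1 / ((k : ℝ) + 1))) ∧
        ∀ m ≤ k, Disjoint (closure V) (Y m)}) (by
      intro k
      refine ⟨fun u hu => hu.1, fun x hx => ?_⟩
      have h2 : IsClosed (⋃ m ∈ Finset.range (k + 1), Y m) :=
        ((Finset.range (k + 1)).finite_toSet.biUnion fun m _ => hY1 m).isClosed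
      have h3 : x ∈ (⋃ m ∈ Finset.range (k + 1), Y m)ᶜ := by
        simp only [mem_compl_iff, mem_iUnion, not_exists]
        exact fun m _ h => disjoint_left.1 (hY2 m) h hx
      obtain ⟨r, hr, h4⟩ := Metric.nhds_basis_closedBall.mem_iff.1 (h2.isOpen_compl.mem_nhds h3)
      have h5 : (0 : ℝ) < 1 / ((k : ℝ) + 1) := by positivity
      refine ⟨Metric.ball x (min r (1 / ((k : ℝ) + 1))), ⟨Metric.isOpen_ball, ⟨x, ?_⟩, ?_⟩,
        Metric.mem_ball_self (lt_min hr h5)⟩
      · exact Metric.closure_ball_subset_closedBall.trans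
          (Metric.closedBall_subset_closedBall (min_le_right _ _))
      · intro m hm
        refine disjoint_left.2 fun y hy hy' => h4 (Metric.closedBall_subset_closedBall
          (min_le_left _ _) (Metric.closure_ball_subset_closedBall hy)) ?_
        simp only [mem_iUnion]
        exact ⟨m, Finset.mem_range.2 (Nat.lt_succ_iff.2 hm), hy'⟩)
    let F' : ℕ → Set G := fun n => ⋂ k, ⋂ _ : n ≤ k, ⋃ V ∈ F k, closure V
    have hcl : ∀ n, IsClosed (F' n) := fun n => isClosed_iInter fun k => isClosed_iInter fun _ =>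
      isClosed_biUnion_finset fun _ _ => isClosed_closure
    refine ⟨fun n => {j | (U j ∩ F' n).Nonempty}, fun n => ?_, fun x hx => ?_⟩
    · rw [hCF _ (hcl n)]
      constructor
      · refine TotallyBounded.isCompact_of_isClosed ?_ (hcl n)
        rw [Metric.totallyBounded_iff]
        intro ε hε
        obtain ⟨k0, hk0⟩ := exists_nat_one_div_lt hε
        let k := max n k0
        have h6 : ∀ V ∈ F k, ∃ c, closure V ⊆ Metric.closedBall c (1 / ((k : ℝ) + 1)) :=
          fun V hV => (hF1 k hV).2.1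
        choose! cc hcc using h6
        refine ⟨cc '' (F k), (F k).finite_toSet.image _, fun y hy => ?_⟩
        simp only [F', mem_iInter, mem_iUnion] at hy
        obtain ⟨V, hV, h7⟩ := hy k (le_max_left _ _)
        simp only [mem_iUnion]
        refine ⟨cc V, ⟨V, hV, rfl⟩, ?_⟩
        refine Metric.closedBall_subset_ball (lt_of_le_of_lt ?_ hk0) (hcc V hV h7)
        exact Nat.one_div_le_one_div (le_max_right _ _)
      · intro m hm
        rcases hY3 m with h | ⟨y, h7, h8⟩
        · exact h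
        · exfalso
          have h9 := hm h8
          simp only [F', mem_iInter, mem_iUnion] at h9
          obtain ⟨V, hV, h10⟩ := h9 (max n m) (le_max_left _ _)
          exact disjoint_left.1 ((hF1 _ hV).2.2 m (le_max_right _ _)) h10 h7
    · obtain ⟨n, hn⟩ := eventually_atTop.1 (hF2 x hx)
      refine ⟨n, fun j hj => ⟨x, hj, ?_⟩⟩
      simp only [F', mem_iInter, mem_iUnion]
      intro k hk
      obtain ⟨V, hV, h⟩ := hn k hk
      exact ⟨V, hV, subset_closure h⟩)
  refine ⟨fun t => if IsCompact (C (M t)) ∧ C (M t) ⊆ X then C (M t) else ∅, fun t => ?_,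
    fun t => ?_, fun x hx => ?_⟩
  · by_cases h : IsCompact (C (M t)) ∧ C (M t) ⊆ X
    · simp only [h, and_self, if_true]
    · simp only [h, if_false, isCompact_empty]
  · by_cases h : IsCompact (C (M t)) ∧ C (M t) ⊆ X
    · simp only [if_pos h]; exact h.2
    · simp only [if_neg h]; exact empty_subset _
  · obtain ⟨A, B, ⟨h1, h2⟩, h3, h4⟩ := hM (code x)
    obtain ⟨n, hn⟩ := h2 x hx
    obtain ⟨m, h5, h6⟩ := h4 n hn
    obtain ⟨t, ht⟩ := h3 m
    have h7 : C (A m) ⊆ C (B n) := fun y hy => Subset.trans hy h6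
    have h8 : IsCompact (C (M t)) ∧ C (M t) ⊆ X := by
      rw [← ht]
      exact ⟨(h1 n).1.of_isClosed_subset (hC _) h7, (h1 n).2 m h7⟩
    refine ⟨t, ?_⟩
    simp only [if_pos h8]
    rw [← ht]
    exact h5

open Pointwise in
theorem not_question {T : Type} [Infinite T] (h1 : Cov T) (h2 : Refl T) : ¬ Question := by
  classical
  rintro ⟨G, _, _, _, _, X, hB, hns, hX⟩
  obtain ⟨K, hK1, hK2, hK3⟩ := union_compact h2 X hX
  let _ : MeasurableSpace G := borel G
  have _ : BorelSpace G := ⟨rfl⟩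
  have hA := hB.analyticSet
  rw [MeasureTheory.AnalyticSet] at hA
  rcases hA with hA | ⟨φ, hφ, hA⟩
  · exact hns (hA ▸ isCompact_empty.isSigmaCompact)
  let K' : List T → Set G := fun l => l.foldr (fun t W => (K t ∪ (K t)⁻¹) * W) {1}
  have hc : ∀ l, IsCompact (K' l) := by
    intro l
    induction l with
    | nil => exact isCompact_singleton
    | cons t l ih => exact ((hK1 t).union (hK1 t).inv).mul ih
  have hs : ∀ l, K' l ⊆ (Subgroup.closure X : Subgroup G) := by
    intro l
    induction l with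
    | nil => exact singleton_subset_iff.2 (Subgroup.one_mem _)
    | cons t l ih =>
      rintro _ ⟨a, ha, b, hb, rfl⟩
      refine Subgroup.mul_mem _ ?_ (ih hb)
      rcases ha with ha | ha
      · exact Subgroup.subset_closure (hK2 t ha)
      · exact (Subgroup.inv_mem_iff _).1 (Subgroup.subset_closure (hK2 t ha))
  have hcov : ∀ y ∈ Subgroup.closure X, ∃ l, y ∈ K' l := by
    intro y hy
    induction hy using Subgroup.closure_induction_left with
    | one => exact ⟨[], rfl⟩
    | mul_left x hx y _ ih =>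
      obtain ⟨l, hl⟩ := ih
      obtain ⟨t, ht⟩ := hK3 x hx
      exact ⟨t :: l, mul_mem_mul (Or.inl ht) hl⟩
    | inv_mul_cancel x hx y _ ih =>
      obtain ⟨l, hl⟩ := ih
      obtain ⟨t, ht⟩ := hK3 x hx
      exact ⟨t :: l, mul_mem_mul (Or.inr (by simpa using ht)) hl⟩
  have hcard : Cardinal.mk (List T × ℕ) = Cardinal.mk T := by
    simp only [Cardinal.mk_prod, Cardinal.lift_id, Cardinal.mk_list_eq_mk, Cardinal.mk_nat]
    exact Cardinal.mul_eq_left (Cardinal.aleph0_le_mk T) (Cardinal.aleph0_le_mk T)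
      Cardinal.aleph0_ne_zero
  obtain ⟨e⟩ := Cardinal.eq.1 hcard
  apply hns
  rw [← hA]
  refine sigmaCompact_of_cover h1 φ hφ e.symm e.symm.surjective K' hc
    (fun l => hA ▸ hs l) fun z => hcov _ ?_
  have : φ z ∈ range φ := ⟨z, rfl⟩
  rwa [hA] at this

end Pool.Agent.H489Z.BorH
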